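import Mathlib
import Pool.Agent.U309.ZF.Stm2

/-!
# Project ZF, package INTCM

`gg (2 cos θ) ≤ (1 - cos θ)³`, whose integral over `[0, π]` is `5 π / 2`; so the number is at most `5 / 4`.

Statement by helper309, proof by helper27.
-/

set_option autoImplicit false

open MeasureTheory intervalIntegral

namespace Pool.Agent.U27.ZF

open Pool.Agent.U309.ZF

theorem gg_le {c : ℝ} (h : c ≤ 1) : gg (2 * c) ≤ (1 - c) ^ 3 := by
  have hx : 0 ≤ 1 - c := by linarith
  unfold gg
  refine max_le (max_le (by positivity) ?_) (max_le ?_ ?_)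
  · nlinarith [mul_nonneg hx (sq_nonneg (1 - c - 1)), mul_nonneg hx (sq_nonneg (1 - c - 1.2)),
      sq_nonneg (1 - c - 1), sq_nonneg (1 - c - 1.2)]
  · nlinarith [mul_nonneg hx (sq_nonneg (1 - c - 1.6)), sq_nonneg (1 - c - 1.6)]
  · nlinarith [mul_nonneg hx (sq_nonneg (1 - c - 2)), sq_nonneg (1 - c - 2)]

theorem gg_cont : Continuous gg := by
  unfold gg
  fun_prop

theorem int_cube : ∫ θ in (0 : ℝ)..Real.pi, (1 - Real.cos θ) ^ 3 = 5 / 2 * Real.pi := by
  have h : ∀ x ∈ Set.uIcc (0 : ℝ) Real.pi, HasDerivAt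
      (fun θ : ℝ => 5 / 2 * θ - 3 * Real.sin θ + 3 / 2 * (Real.sin θ * Real.cos θ)
        - (Real.sin θ - Real.sin θ ^ 3 / 3)) ((1 - Real.cos x) ^ 3) x := by
    intro x _
    have hs := Real.hasDerivAt_sin x
    have hc := Real.hasDerivAt_cos x
    have h1 := (((((hasDerivAt_id x).const_mul (5 / 2)).sub (hs.const_mul 3)).add
      ((hs.mul hc).const_mul (3 / 2))).sub (hs.sub ((hs.pow 3).div_const 3)))
    refine (h1.congr_deriv ?_ : _)
    have h2 := Real.sin_sq_add_cos_sq x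
    have h3 : Real.sin x ^ 2 = 1 - Real.cos x ^ 2 := by linarith
    have e : Real.sin x * -Real.sin x = -(1 - Real.cos x ^ 2) := by
      rw [← h3]; ring
    have e2 : (3 - 1 : ℕ) = 2 := rfl
    rw [e, e2, h3]
    push_cast
    ring
  rw [integral_eq_sub_of_hasDerivAt h]
  · simp
  · apply Continuous.intervalIntegrable
    fun_prop

theorem t_INTCM : S_INTCM := by
  unfold S_INTCM
  have h0 : gg 0 = 0 := by
    unfold gg
    norm_num
  have hpi := Real.pi_pos
  have h1 : ∫ θ in (0 : ℝ)..Real.pi, gg (2 * Real.cos θ) ≤ 5 / 2 * Real.pi := by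
    rw [← int_cube]
    refine integral_mono hpi.le ?_ ?_ fun θ => gg_le (Real.cos_le_one θ)
    · exact (gg_cont.comp (by fun_prop)).intervalIntegrable _ _
    · apply Continuous.intervalIntegrable
      fun_prop
  have h2 : (2 * Real.pi)⁻¹ * ∫ θ in (0 : ℝ)..Real.pi, gg (2 * Real.cos θ) ≤
      (2 * Real.pi)⁻¹ * (5 / 2 * Real.pi) := mul_le_mul_of_nonneg_left h1 (by positivity)
  have h3 : (2 * Real.pi)⁻¹ * (5 / 2 * Real.pi) = 5 / 4 := by
    field_simp
    norm_num
  rw [h0, zero_div, zero_add]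
  rw [h3] at h2
  refine h2.trans ?_
  norm_num

end Pool.Agent.U27.ZF
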